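import Pool.Agent.H213.MSB.Main

/-!
# Meromorphic functions with non-real zeros and poles which generate multiplier sequences

Let `G(z) = a z + ∑ m_i z² / (p_i z + q_i)` with `a, m_i, p_i ≥ 0`, `q_i > 0` (that is, `G(z) = z f(z)` with
a rational complete Bernstein function `f`), and let `β > -1`. Every function `F` with `F(0)` real and
`(G((k + β/2)²) - G((β/2)²)) F(k) = k F(k - 1)` for `k = 1, 2, …` generates a multiplier sequence.
The case `G(z) = z` is `F(z) = 1 / Γ(z + 1 + β)`, the Laguerre polynomials. The meromorphic solutions are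
products and quotients of Gamma functions, the zeros and poles of which are not real in general.

Proof. Let `P(x) = ∑ binom(n, k) F(k) x^k` and `c_k = binom(n, k) F(k) x^k`; then
`w(k) c_k = x (n - k + 1) c_(k-1)`, `w(k) = G((k + β/2)²) - G((β/2)²)`. If `x < 0` is a double zero of
`P`, then `∑ c_k = ∑ k c_k = 0`, and the sum `∑∑ c_k c_l (w(k) - w(l)) (k - l) / (k + l + β)` is
nonnegative (a sum of squares, by the form of `G`) and on the other hand equal to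
`x ∑∑ c_k c_l (2n + 1 + β + (2k + 1 + β)(2l + 1 + β)) / (k + l + 1 + β) < 0`, as the Cauchy matrix is
positive definite. So `P` has no double zeros, and by a deformation to the Laguerre polynomials all its
zeros are real; the theorem of Polya and Schur completes the proof.
-/

set_option autoImplicit false

open Polynomial

namespace Pool.Agent.Results.MP_d164ca_an.GammaProductsNonrealZeros

/-- All complex zeros of the real polynomial `p` are real (the zero polynomial is admitted). -/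
def Hyperbolic (p : ℝ[X]) : Prop := p = 0 ∨ ∀ z : ℂ, aeval z p = 0 → z.im = 0

/-- `γ` is a multiplier sequence: `∑ γ_k a_k x^k` is hyperbolic whenever `∑ a_k x^k` is. -/
def IsMultSeq (γ : ℕ → ℝ) : Prop :=
  ∀ p : ℝ[X], Hyperbolic p → Hyperbolic (p.sum fun k a => monomial k (γ k * a))

/-- `F` is real at `0, 1, 2, …` and `(F(k))` is a multiplier sequence. -/
def Generates (F : ℂ → ℂ) : Prop := ∃ γ : ℕ → ℝ, (∀ k : ℕ, F k = γ k) ∧ IsMultSeq γ

/-- `G(z) = a z + ∑ m_i z² / (p_i z + q_i)` -/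
noncomputable def G {ι : Type} [Fintype ι] (a : ℝ) (p q m : ι → ℝ) (z : ℝ) : ℝ :=
  a * z + ∑ i, m i * (z ^ 2 / (p i * z + q i))

/-- `F(z) = 1 / (Γ(z + 1 + β) Γ(z + 1 + β/2 + iμ) Γ(z + 1 + β/2 - iμ))` -/
noncomputable def E (β μ : ℝ) (z : ℂ) : ℂ :=
  (Complex.Gamma (z + 1 + β))⁻¹ * (Complex.Gamma (z + 1 + β / 2 + μ * Complex.I))⁻¹ *
    (Complex.Gamma (z + 1 + β / 2 - μ * Complex.I))⁻¹

/-- `D(z) = 1 / (Γ(z + 1 + iρ) Γ(z + 1 - iρ))` -/
noncomputable def D (ρ : ℝ) (z : ℂ) : ℂ :=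
  (Complex.Gamma (z + 1 + ρ * Complex.I))⁻¹ * (Complex.Gamma (z + 1 - ρ * Complex.I))⁻¹

section proofs

open Pool.Agent.H213.MSB Pool.Agent.Helper771.MultSeq

theorem G_eq {ι : Type} [Fintype ι] (β a : ℝ) (p q m : ι → ℝ) (k : ℕ) :
    G a p q m (((k : ℝ) + β / 2) ^ 2) - G a p q m ((β / 2) ^ 2) = W β a p q m k := by
  unfold G W gg
  simp only [mul_sub, Finset.sum_sub_distrib]
  ring

theorem part1 {ι : Type} [Fintype ι] {β a : ℝ} {p q m : ι → ℝ} (hβ : -1 < β) (ha : 0 ≤ a)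
    (hp : ∀ i, 0 ≤ p i) (hq : ∀ i, 0 < q i) (hm : ∀ i, 0 ≤ m i) (ham : 0 < a ∨ ∃ i, 0 < m i)
    (F : ℂ → ℂ) (h0 : (F 0).im = 0)
    (hF : ∀ k : ℕ, F (k + 1) * ((G a p q m (((k : ℝ) + 1 + β / 2) ^ 2) - G a p q m ((β / 2) ^ 2) : ℝ) : ℂ) =
      (k + 1) * F k) : Generates F := by
  refine ⟨fun k => (F 0).re * gam (W β a p q m) k, fun k => ?_, ?_⟩
  · induction k with
    | zero =>
      simp [gam]
      apply Complex.ext <;> simp [h0]
    | succ k ih =>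
      have h1 := hF k
      have h2 := G_eq β a p q m (k + 1)
      push_cast at h2
      rw [h2, ih] at h1
      have h3 : 0 < W β a p q m (k + 1) := W_pos hβ ha hp hq hm ham (by omega)
      have h4 : ((W β a p q m (k + 1) : ℝ) : ℂ) ≠ 0 := by exact_mod_cast h3.ne'
      push_cast
      rw [eq_div_of_mul_eq h4 h1, gam_succ]
      push_cast
      ring
  · have h := ms_mul (ms_const (F 0).re) (ms_W hβ ha hp hq hm ham)
    exact h

theorem gamma_step {s : ℂ} (hs : 0 < s.re) : (Complex.Gamma (s + 1))⁻¹ * s = (Complex.Gamma s)⁻¹ := by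
  have h0 : s ≠ 0 := by
    intro h; rw [h] at hs; simp at hs
  rw [Complex.Gamma_add_one s h0, mul_inv]
  field_simp

theorem inv_gamma_diff (c : ℂ) : Differentiable ℂ fun z : ℂ => (Complex.Gamma (z + c))⁻¹ := by
  have := Complex.differentiable_one_div_Gamma
  exact this.comp (differentiable_id.add_const c)

theorem E_diff (β μ : ℝ) : Differentiable ℂ (E β μ) := by
  have e : E β μ = fun z : ℂ => (Complex.Gamma (z + (1 + β)))⁻¹ *
    (Complex.Gamma (z + (1 + β / 2 + μ * Complex.I)))⁻¹ *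
    (Complex.Gamma (z + (1 + β / 2 - μ * Complex.I)))⁻¹ := by
    funext z
    unfold E
    congr 3 <;> ring_nf
  rw [e]
  exact ((inv_gamma_diff _).mul (inv_gamma_diff _)).mul (inv_gamma_diff _)

theorem D_diff (ρ : ℝ) : Differentiable ℂ (D ρ) := by
  have e : D ρ = fun z : ℂ => (Complex.Gamma (z + (1 + ρ * Complex.I)))⁻¹ *
    (Complex.Gamma (z + (1 - ρ * Complex.I)))⁻¹ := by
    funext z
    unfold D
    congr 3 <;> ring_nf
  rw [e]
  exact (inv_gamma_diff _).mul (inv_gamma_diff _)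

theorem E_zero_im {β μ : ℝ} : (E β μ 0).im = 0 := by
  rw [← Complex.conj_eq_iff_im]
  unfold E
  simp only [map_mul, map_inv₀, ← Complex.Gamma_conj, map_add, map_sub, map_zero, map_one, map_div₀,
    Complex.conj_ofReal, Complex.conj_I, map_ofNat]
  ring_nf

theorem D_zero_im {ρ : ℝ} : (D ρ 0).im = 0 := by
  rw [← Complex.conj_eq_iff_im]
  unfold D
  simp only [map_mul, map_inv₀, ← Complex.Gamma_conj, map_add, map_sub, map_zero, map_one,
    Complex.conj_ofReal, Complex.conj_I]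
  ring_nf

theorem E_step {β μ : ℝ} (hβ : -1 < β) (k : ℕ) : E β μ (k + 1) *
    (((k : ℂ) + 1 + β) * (((k : ℂ) + 1 + β / 2) ^ 2 + μ ^ 2)) = E β μ k := by
  have hk : (0:ℝ) ≤ k := Nat.cast_nonneg k
  have h1 := gamma_step (s := (k : ℂ) + 1 + β) (by simp; linarith)
  have h2 := gamma_step (s := (k : ℂ) + 1 + β / 2 + μ * Complex.I) (by simp; linarith)
  have h3 := gamma_step (s := (k : ℂ) + 1 + β / 2 - μ * Complex.I) (by simp; linarith)
  unfold E
  rw [← h1, ← h2, ← h3]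
  have e1 : (k : ℂ) + 1 + 1 + β = (k : ℂ) + 1 + β + 1 := by ring
  have e2 : (k : ℂ) + 1 + 1 + β / 2 + μ * Complex.I = (k : ℂ) + 1 + β / 2 + μ * Complex.I + 1 := by ring
  have e3 : (k : ℂ) + 1 + 1 + β / 2 - μ * Complex.I = (k : ℂ) + 1 + β / 2 - μ * Complex.I + 1 := by ring
  rw [e1, e2, e3]
  have e4 : ((k : ℂ) + 1 + β / 2) ^ 2 + μ ^ 2 = ((k : ℂ) + 1 + β / 2 + μ * Complex.I) *
      ((k : ℂ) + 1 + β / 2 - μ * Complex.I) := by
    have := Complex.I_sq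
    linear_combination ((μ:ℂ) ^ 2) * this
  rw [e4]
  ring

theorem D_step {ρ : ℝ} (k : ℕ) : D ρ (k + 1) * (((k : ℂ) + 1) ^ 2 + ρ ^ 2) = D ρ k := by
  have hk : (0:ℝ) ≤ k := Nat.cast_nonneg k
  have h2 := gamma_step (s := (k : ℂ) + 1 + ρ * Complex.I) (by simp; linarith)
  have h3 := gamma_step (s := (k : ℂ) + 1 - ρ * Complex.I) (by simp; linarith)
  unfold D
  rw [← h2, ← h3]
  have e2 : (k : ℂ) + 1 + 1 + ρ * Complex.I = (k : ℂ) + 1 + ρ * Complex.I + 1 := by ring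
  have e3 : (k : ℂ) + 1 + 1 - ρ * Complex.I = (k : ℂ) + 1 - ρ * Complex.I + 1 := by ring
  rw [e2, e3]
  have e4 : ((k : ℂ) + 1) ^ 2 + ρ ^ 2 = ((k : ℂ) + 1 + ρ * Complex.I) *
      ((k : ℂ) + 1 - ρ * Complex.I) := by
    have := Complex.I_sq
    linear_combination ((ρ:ℂ) ^ 2) * this
  rw [e4]
  ring

theorem D_ne {ρ : ℝ} (k : ℕ) : D ρ k ≠ 0 := by
  have hk : (0:ℝ) ≤ k := Nat.cast_nonneg k
  unfold D
  apply mul_ne_zero
  · exact inv_ne_zero (Complex.Gamma_ne_zero_of_re_pos (by simp; linarith))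
  · exact inv_ne_zero (Complex.Gamma_ne_zero_of_re_pos (by simp; linarith))

theorem E_gen {β μ : ℝ} (hβ : -1 < β) (h : |β| ≤ 2 * |μ|) : Generates (E β μ) := by
  have ha : 0 ≤ μ ^ 2 - β ^ 2 / 4 := by
    have h1 : |β| ^ 2 ≤ (2 * |μ|) ^ 2 := pow_le_pow_left₀ (abs_nonneg _) h 2
    rw [mul_pow, sq_abs, sq_abs] at h1
    linarith
  refine part1 (ι := Unit) (β := β) (a := μ ^ 2 - β ^ 2 / 4) (p := fun _ => 0) (q := fun _ => 1)
    (m := fun _ => 1) hβ ha (fun _ => le_rfl) (fun _ => one_pos) (fun _ => zero_le_one)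
    (Or.inr ⟨(), one_pos⟩) (E β μ) E_zero_im ?_
  intro k
  rw [← E_step hβ k]
  have : (G (μ ^ 2 - β ^ 2 / 4) (fun _ : Unit => (0:ℝ)) (fun _ => 1) (fun _ => 1) (((k : ℝ) + 1 + β / 2) ^ 2) -
      G (μ ^ 2 - β ^ 2 / 4) (fun _ : Unit => (0:ℝ)) (fun _ => 1) (fun _ => 1) ((β / 2) ^ 2) : ℝ) =
      ((k:ℝ) + 1) * (((k : ℝ) + 1 + β) * (((k : ℝ) + 1 + β / 2) ^ 2 + μ ^ 2)) := by
    unfold G
    simp
    ring
  rw [this]
  push_cast
  ring

theorem quot_gen {σ ρ : ℝ} (hσ : 0 ≤ σ) (hρ : 0 < ρ) (h : σ ≤ ρ) :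
    Generates (fun z => E 0 σ z / D ρ z) := by
  have h1 : 0 ≤ 1 - σ ^ 2 / ρ ^ 2 := by
    rw [sub_nonneg, div_le_one (by positivity)]
    exact pow_le_pow_left₀ hσ h 2
  have ham : 0 < σ ^ 2 / ρ ^ 2 ∨ ∃ i : Unit, 0 < (fun _ : Unit => 1 - σ ^ 2 / ρ ^ 2) i := by
    rcases hσ.eq_or_lt with h0 | h0
    · right
      refine ⟨(), ?_⟩
      rw [← h0]; simp
    · left; positivity
  refine part1 (ι := Unit) (β := 0) (a := σ ^ 2 / ρ ^ 2) (p := fun _ => 1) (q := fun _ => ρ ^ 2)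
    (m := fun _ => 1 - σ ^ 2 / ρ ^ 2) (by norm_num) (by positivity) (fun _ => zero_le_one)
    (fun _ => by positivity) (fun _ => h1) ham _ ?_ ?_
  · rw [Complex.div_im, E_zero_im, D_zero_im]
    simp
  · intro k
    have hk : (0:ℝ) ≤ k := Nat.cast_nonneg k
    have e1 := E_step (β := 0) (μ := σ) (by norm_num) k
    have e2 := D_step (ρ := ρ) k
    have hD := D_ne (ρ := ρ) (k + 1)
    push_cast at hD
    have : (G (σ ^ 2 / ρ ^ 2) (fun _ : Unit => (1:ℝ)) (fun _ => ρ ^ 2) (fun _ => 1 - σ ^ 2 / ρ ^ 2)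
        (((k : ℝ) + 1 + 0 / 2) ^ 2) -
        G (σ ^ 2 / ρ ^ 2) (fun _ : Unit => (1:ℝ)) (fun _ => ρ ^ 2) (fun _ => 1 - σ ^ 2 / ρ ^ 2)
          ((0 / 2) ^ 2) : ℝ) =
        ((k:ℝ) + 1) * (((k : ℝ) + 1) * (((k : ℝ) + 1) ^ 2 + σ ^ 2)) / (((k:ℝ) + 1) ^ 2 + ρ ^ 2) := by
      unfold G
      have hρ0 : ρ ≠ 0 := hρ.ne'
      have g1 : ((k:ℝ) + 1) ^ 2 + ρ ^ 2 ≠ 0 := by positivity
      simp
      field_simp
      ring
    rw [this]
    have g1 : (((k:ℂ) + 1) ^ 2 + ρ ^ 2) ≠ 0 := by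
      have g2 : ((k:ℝ) + 1) ^ 2 + ρ ^ 2 ≠ 0 := by positivity
      exact_mod_cast g2
    rw [← e1, ← e2]
    push_cast
    field_simp
    ring

theorem gamma_inv_pole (n : ℕ) : (Complex.Gamma (-(n : ℂ)))⁻¹ = 0 := by
  rw [Complex.Gamma_neg_nat_eq_zero, inv_zero]

end proofs

/-- **Main theorem.**
(1) Let `β > -1` and `G(z) = a z + ∑ m_i z² / (p_i z + q_i)`, `a, m_i, p_i ≥ 0`, `q_i > 0`, not all of
`a, m_i` zero. Every `F` with `F(0)` real and `(G((k + 1 + β/2)²) - G((β/2)²)) F(k + 1) = (k + 1) F(k)`,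
`k = 0, 1, …`, generates a multiplier sequence.
(2) For `β > -1` and real `μ` with `|β| ≤ 2 |μ|` the entire function
`1 / (Γ(z + 1 + β) Γ(z + 1 + β/2 + iμ) Γ(z + 1 + β/2 - iμ))` generates a multiplier sequence; it
vanishes at the points `-n - 1 - β/2 ± iμ`, `n = 0, 1, …`.
(3) For `0 ≤ σ ≤ ρ`, `ρ > 0` the meromorphic function
`Γ(z + 1 + iρ) Γ(z + 1 - iρ) / (Γ(z + 1) Γ(z + 1 + iσ) Γ(z + 1 - iσ))`, the quotient of the entire
functions `E 0 σ` and `D ρ`, where `D ρ` has no zero at `0, 1, 2, …`, generates a multiplier sequence; for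
`σ < ρ` it has poles at all the points `-n - 1 ± iρ`, `n = 0, 1, …`. -/
theorem result :
    (∀ (ι : Type) [Fintype ι] (β a : ℝ) (p q m : ι → ℝ), -1 < β → 0 ≤ a → (∀ i, 0 ≤ p i) →
      (∀ i, 0 < q i) → (∀ i, 0 ≤ m i) → (0 < a ∨ ∃ i, 0 < m i) → ∀ F : ℂ → ℂ, (F 0).im = 0 →
      (∀ k : ℕ, F (k + 1) * ((G a p q m (((k : ℝ) + 1 + β / 2) ^ 2) - G a p q m ((β / 2) ^ 2) : ℝ) : ℂ) =
        (k + 1) * F k) → Generates F) ∧
    (∀ β μ : ℝ, -1 < β → |β| ≤ 2 * |μ| →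
      Differentiable ℂ (E β μ) ∧ Generates (E β μ) ∧
      ∀ n : ℕ, E β μ (-n - 1 - β / 2 + μ * Complex.I) = 0 ∧ E β μ (-n - 1 - β / 2 - μ * Complex.I) = 0) ∧
    (∀ σ ρ : ℝ, 0 ≤ σ → 0 < ρ → σ ≤ ρ →
      Differentiable ℂ (E 0 σ) ∧ Differentiable ℂ (D ρ) ∧ (∀ k : ℕ, D ρ k ≠ 0) ∧
      Generates (fun z => E 0 σ z / D ρ z) ∧
      (σ < ρ → ∀ n : ℕ, D ρ (-n - 1 + ρ * Complex.I) = 0 ∧ D ρ (-n - 1 - ρ * Complex.I) = 0 ∧
        E 0 σ (-n - 1 + ρ * Complex.I) ≠ 0 ∧ E 0 σ (-n - 1 - ρ * Complex.I) ≠ 0)) := by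
  refine ⟨fun ι _ β a p q m hβ ha hp hq hm ham F h0 hF => part1 hβ ha hp hq hm ham F h0 hF, ?_, ?_⟩
  · intro β μ hβ h
    refine ⟨E_diff β μ, E_gen hβ h, fun n => ⟨?_, ?_⟩⟩
    · unfold E
      have e : (-n - 1 - β / 2 + μ * Complex.I : ℂ) + 1 + β / 2 - μ * Complex.I = -(n : ℂ) := by ring
      rw [e, gamma_inv_pole, mul_zero]
    · unfold E
      have e : (-n - 1 - β / 2 - μ * Complex.I : ℂ) + 1 + β / 2 + μ * Complex.I = -(n : ℂ) := by ring
      rw [e, gamma_inv_pole, mul_zero, zero_mul]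
  · intro σ ρ hσ hρ h
    refine ⟨E_diff 0 σ, D_diff ρ, fun k => D_ne k, quot_gen hσ hρ h, fun hlt n => ?_⟩
    have hG : ∀ x y : ℝ, y ≠ 0 → (Complex.Gamma (x + y * Complex.I))⁻¹ ≠ 0 := by
      intro x y hy
      apply inv_ne_zero
      apply Complex.Gamma_ne_zero
      intro m hm
      apply hy
      have := congrArg Complex.im hm
      simpa using this
    refine ⟨?_, ?_, ?_, ?_⟩
    · unfold D
      have e : (-n - 1 + ρ * Complex.I : ℂ) + 1 - ρ * Complex.I = -(n : ℂ) := by ring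
      rw [e, gamma_inv_pole, mul_zero]
    · unfold D
      have e : (-n - 1 - ρ * Complex.I : ℂ) + 1 + ρ * Complex.I = -(n : ℂ) := by ring
      rw [e, gamma_inv_pole, zero_mul]
    · unfold E
      have e1 : (-n - 1 + ρ * Complex.I : ℂ) + 1 + ((0:ℝ):ℂ) = ((-n : ℝ) : ℂ) + (ρ : ℝ) * Complex.I := by
        push_cast; ring
      have e2 : (-n - 1 + ρ * Complex.I : ℂ) + 1 + ((0:ℝ):ℂ) / 2 + σ * Complex.I =
          ((-n : ℝ) : ℂ) + ((ρ + σ : ℝ) : ℂ) * Complex.I := by push_cast; ring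
      have e3 : (-n - 1 + ρ * Complex.I : ℂ) + 1 + ((0:ℝ):ℂ) / 2 - σ * Complex.I =
          ((-n : ℝ) : ℂ) + ((ρ - σ : ℝ) : ℂ) * Complex.I := by push_cast; ring
      rw [e1, e2, e3]
      exact mul_ne_zero (mul_ne_zero (hG _ _ hρ.ne') (hG _ _ (by linarith))) (hG _ _ (by linarith))
    · unfold E
      have e1 : (-n - 1 - ρ * Complex.I : ℂ) + 1 + ((0:ℝ):ℂ) = ((-n : ℝ) : ℂ) + ((-ρ : ℝ) : ℂ) * Complex.I := by
        push_cast; ring
      have e2 : (-n - 1 - ρ * Complex.I : ℂ) + 1 + ((0:ℝ):ℂ) / 2 + σ * Complex.I =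
          ((-n : ℝ) : ℂ) + ((-ρ + σ : ℝ) : ℂ) * Complex.I := by push_cast; ring
      have e3 : (-n - 1 - ρ * Complex.I : ℂ) + 1 + ((0:ℝ):ℂ) / 2 - σ * Complex.I =
          ((-n : ℝ) : ℂ) + ((-ρ - σ : ℝ) : ℂ) * Complex.I := by push_cast; ring
      rw [e1, e2, e3]
      exact mul_ne_zero (mul_ne_zero (hG _ _ (by linarith)) (hG _ _ (by linarith)))
        (hG _ _ (by linarith))

end Pool.Agent.Results.MP_d164ca_an.GammaProductsNonrealZeros
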